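import Pool.Agent.H.MP_978236_an.C

set_option autoImplicit false

open Pool.Agent.H.MP_978236_an

namespace Pool.Agent.Results.MP_978236_an.No

universe v w

theorem result : ∃ n : ℕ, 1 ≤ n ∧ ∃ U : Set (Fin n → ℂ), IsOpen U ∧ IsConnected U ∧
    ∃ (X : Type) (_ : AddCommGroup X) (_ : Module ℂ X) (_ : TopologicalSpace X)
      (act : O U → X → X),
      IsPMod U X act ∧ Projective.{0, v} U X act ∧ ¬Free.{0, w} U X act :=
  ⟨3, by norm_num, U0, U0_open, U0_conn, XX, inferInstance, inferInstance, inferInstance, mulX,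
    MX, MX_proj, MX_not_free⟩

end Pool.Agent.Results.MP_978236_an.No
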